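import Mathlib

set_option autoImplicit false

open Polynomial MeasureTheory

namespace Pool.Agent.Results.MP_c605fa_an.MaxArcLength

/-- The class of real monic polynomials of degree `n` all of whose zeros
`x_1 ≤ ... ≤ x_n` are real and lie in `[-1,1]` (repetitions allowed). -/
def M (n : ℕ) : Set ℝ[X] :=
  {P | ∃ z : Fin n → ℝ, Monotone z ∧ (∀ i, z i ∈ Set.Icc (-1 : ℝ) 1) ∧ P = ∏ i, (X - C (z i))}

/-- The arc-length of the graph of `P` over `[-1,1]`. -/
noncomputable def arcLength (P : ℝ[X]) : ℝ :=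
  ∫ x in (-1 : ℝ)..1, Real.sqrt (1 + (P.derivative.eval x) ^ 2)

/-! ### Scalar convexity -/

lemma sqrt_aux (a b : ℝ) : 1 + a * b ≤ Real.sqrt (1 + a ^ 2) * Real.sqrt (1 + b ^ 2) := by
  rw [← Real.sqrt_mul (by positivity)]
  apply Real.le_sqrt_of_sq_le
  nlinarith [sq_nonneg (a - b)]

lemma sqrt_aux_lt {a b : ℝ} (h : a ≠ b) :
    1 + a * b < Real.sqrt (1 + a ^ 2) * Real.sqrt (1 + b ^ 2) := by
  rw [← Real.sqrt_mul (by positivity)]
  apply Real.lt_sqrt_of_sq_lt
  have : 0 < (a - b) ^ 2 := by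
    have := sub_ne_zero.mpr h
    positivity
  nlinarith [this]

lemma sqrt_conv (a b s : ℝ) (h0 : 0 ≤ s) (h1 : s ≤ 1) :
    Real.sqrt (1 + ((1 - s) * a + s * b) ^ 2) ≤
      (1 - s) * Real.sqrt (1 + a ^ 2) + s * Real.sqrt (1 + b ^ 2) := by
  have hA := Real.sqrt_nonneg (1 + a ^ 2)
  have hB := Real.sqrt_nonneg (1 + b ^ 2)
  have hA2 : Real.sqrt (1 + a ^ 2) ^ 2 = 1 + a ^ 2 := Real.sq_sqrt (by positivity)
  have hB2 : Real.sqrt (1 + b ^ 2) ^ 2 = 1 + b ^ 2 := Real.sq_sqrt (by positivity)
  have h1' : 0 ≤ 1 - s := by linarith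
  apply Real.sqrt_le_iff.mpr
  constructor
  · positivity
  · have key := sqrt_aux a b
    have hs : 0 ≤ s * (1 - s) := by positivity
    nlinarith [mul_le_mul_of_nonneg_left key hs]

lemma sqrt_conv_lt {a b s : ℝ} (h0 : 0 < s) (h1 : s < 1) (hab : a ≠ b) :
    Real.sqrt (1 + ((1 - s) * a + s * b) ^ 2) <
      (1 - s) * Real.sqrt (1 + a ^ 2) + s * Real.sqrt (1 + b ^ 2) := by
  have hA : 0 < Real.sqrt (1 + a ^ 2) := Real.sqrt_pos.mpr (by positivity)
  have hB : 0 < Real.sqrt (1 + b ^ 2) := Real.sqrt_pos.mpr (by positivity)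
  have hA2 : Real.sqrt (1 + a ^ 2) ^ 2 = 1 + a ^ 2 := Real.sq_sqrt (by positivity)
  have hB2 : Real.sqrt (1 + b ^ 2) ^ 2 = 1 + b ^ 2 := Real.sq_sqrt (by positivity)
  have h1' : 0 < 1 - s := by linarith
  rw [Real.sqrt_lt' (by positivity)]
  have key := sqrt_aux_lt hab
  have hs : 0 < s * (1 - s) := by positivity
  nlinarith [mul_lt_mul_of_pos_left key hs]

/-! ### Continuity of the integrand -/

lemma cont_integrand (P : ℝ[X]) :
    Continuous (fun x : ℝ => Real.sqrt (1 + (P.derivative.eval x) ^ 2)) := by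
  have : Continuous (fun x : ℝ => P.derivative.eval x) := P.derivative.continuous
  fun_prop

/-! ### Convexity of the arc length in one zero -/

lemma deriv_eval (Q : ℝ[X]) (t x : ℝ) :
    ((X - C t) * Q).derivative.eval x = Q.eval x + (x - t) * Q.derivative.eval x := by
  simp [derivative_mul]

lemma arc_conv (Q : ℝ[X]) (t : ℝ) (ht : t ∈ Set.Icc (-1 : ℝ) 1) :
    arcLength ((X - C t) * Q) ≤
      (1 - (t + 1) / 2) * arcLength ((X - C (-1)) * Q) +
        ((t + 1) / 2) * arcLength ((X - C 1) * Q) := by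
  unfold arcLength
  rw [← intervalIntegral.integral_const_mul, ← intervalIntegral.integral_const_mul,
    ← intervalIntegral.integral_add]
  · apply intervalIntegral.integral_mono_on (by norm_num)
    · exact (cont_integrand _).intervalIntegrable _ _
    · exact (((cont_integrand _).const_mul _).add ((cont_integrand _).const_mul _)).intervalIntegrable _ _
    · intro x _
      simp only [deriv_eval]
      have := sqrt_conv (Q.eval x + (x - (-1)) * Q.derivative.eval x)
        (Q.eval x + (x - 1) * Q.derivative.eval x) ((t + 1) / 2)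
        (by linarith [ht.1]) (by linarith [ht.2])
      refine le_trans (le_of_eq ?_) this
      congr 2
      ring
  · exact ((cont_integrand _).const_mul _).intervalIntegrable _ _
  · exact ((cont_integrand _).const_mul _).intervalIntegrable _ _

lemma arc_conv_lt (Q : ℝ[X]) (hQ : Q.derivative ≠ 0) (t : ℝ) (ht : t ∈ Set.Ioo (-1 : ℝ) 1) :
    arcLength ((X - C t) * Q) <
      (1 - (t + 1) / 2) * arcLength ((X - C (-1)) * Q) +
        ((t + 1) / 2) * arcLength ((X - C 1) * Q) := by
  unfold arcLength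
  rw [← intervalIntegral.integral_const_mul, ← intervalIntegral.integral_const_mul,
    ← intervalIntegral.integral_add]
  · apply intervalIntegral.integral_lt_integral_of_continuousOn_of_le_of_exists_lt (by norm_num)
    · exact (cont_integrand _).continuousOn
    · exact (((cont_integrand _).const_mul _).add ((cont_integrand _).const_mul _)).continuousOn
    · intro x _
      simp only [deriv_eval]
      have := sqrt_conv (Q.eval x + (x - (-1)) * Q.derivative.eval x)
        (Q.eval x + (x - 1) * Q.derivative.eval x) ((t + 1) / 2)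
        (by linarith [ht.1]) (by linarith [ht.2])
      refine le_trans (le_of_eq ?_) this
      congr 2
      ring
    · -- a point where the derivative of Q does not vanish
      obtain ⟨c, hc, hc'⟩ : ∃ c ∈ Set.Icc (-1 : ℝ) 1, Q.derivative.eval c ≠ 0 := by
        by_contra hcon
        push Not at hcon
        apply hQ
        apply Polynomial.eq_zero_of_infinite_isRoot
        exact (Set.Icc_infinite (by norm_num : (-1 : ℝ) < 1)).mono (fun x hx => hcon x hx)
      refine ⟨c, hc, ?_⟩
      simp only [deriv_eval]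
      have := sqrt_conv_lt (a := Q.eval c + (c - (-1)) * Q.derivative.eval c)
        (b := Q.eval c + (c - 1) * Q.derivative.eval c) (s := (t + 1) / 2)
        (by linarith [ht.1]) (by linarith [ht.2]) (by
          intro h
          apply hc'
          linarith)
      refine lt_of_le_of_lt (le_of_eq ?_) this
      congr 2
      ring
  · exact ((cont_integrand _).const_mul _).intervalIntegrable _ _
  · exact ((cont_integrand _).const_mul _).intervalIntegrable _ _

/-! ### Reduction to zeros in `{-1, 1}` -/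

/-- The product polynomial with zero vector `z`. -/
noncomputable def pol {n : ℕ} (z : Fin n → ℝ) : ℝ[X] := ∏ i, (X - C (z i))

lemma pol_update {n : ℕ} (z : Fin n → ℝ) (i : Fin n) (t : ℝ) :
    pol (Function.update z i t) = (X - C t) * ∏ j ∈ Finset.univ.erase i, (X - C (z j)) := by
  unfold pol
  rw [← Finset.mul_prod_erase Finset.univ _ (Finset.mem_univ i)]
  congr 1
  · simp
  · apply Finset.prod_congr rfl
    intro j hj
    rw [Function.update_of_ne (Finset.ne_of_mem_erase hj)]

lemma step_le {n : ℕ} (z : Fin n → ℝ) (i : Fin n) (hz : z i ∈ Set.Icc (-1 : ℝ) 1) :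
    ∃ t : ℝ, (t = -1 ∨ t = 1) ∧ arcLength (pol z) ≤ arcLength (pol (Function.update z i t)) := by
  have h := arc_conv (∏ j ∈ Finset.univ.erase i, (X - C (z j))) (z i) hz
  rw [← pol_update, ← pol_update, ← pol_update, Function.update_eq_self] at h
  rcases le_total (arcLength (pol (Function.update z i (-1))))
    (arcLength (pol (Function.update z i 1))) with h' | h'
  · refine ⟨1, Or.inr rfl, ?_⟩
    have h1 : 0 ≤ 1 - (z i + 1) / 2 := by linarith [hz.2]
    nlinarith [mul_le_mul_of_nonneg_left h' h1]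
  · refine ⟨-1, Or.inl rfl, ?_⟩
    have h1 : 0 ≤ (z i + 1) / 2 := by linarith [hz.1]
    nlinarith [mul_le_mul_of_nonneg_left h' h1]

lemma natDegree_rest {n : ℕ} (z : Fin n → ℝ) (i : Fin n) :
    (∏ j ∈ Finset.univ.erase i, (X - C (z j))).natDegree = n - 1 := by
  rw [natDegree_prod_of_monic _ _ (fun j _ => monic_X_sub_C _)]
  simp

lemma step_lt {n : ℕ} (hn : 2 ≤ n) (z : Fin n → ℝ) (i : Fin n) (hz : z i ∈ Set.Ioo (-1 : ℝ) 1) :
    ∃ t : ℝ, (t = -1 ∨ t = 1) ∧ arcLength (pol z) < arcLength (pol (Function.update z i t)) := by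
  have hQ : (∏ j ∈ Finset.univ.erase i, (X - C (z j))).derivative ≠ 0 := by
    intro h0
    have h1 := Polynomial.derivative_eq_zero.mp h0
    rw [natDegree_rest] at h1
    omega
  have h := arc_conv_lt (∏ j ∈ Finset.univ.erase i, (X - C (z j))) hQ (z i) hz
  rw [← pol_update, ← pol_update, ← pol_update, Function.update_eq_self] at h
  rcases le_total (arcLength (pol (Function.update z i (-1))))
    (arcLength (pol (Function.update z i 1))) with h' | h'
  · refine ⟨1, Or.inr rfl, ?_⟩
    have h1 : 0 ≤ 1 - (z i + 1) / 2 := by linarith [hz.2]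
    nlinarith [mul_le_mul_of_nonneg_left h' h1]
  · refine ⟨-1, Or.inl rfl, ?_⟩
    have h1 : 0 ≤ (z i + 1) / 2 := by linarith [hz.1]
    nlinarith [mul_le_mul_of_nonneg_left h' h1]

lemma to_vertex {n : ℕ} (z : Fin n → ℝ) (hz : ∀ i, z i ∈ Set.Icc (-1 : ℝ) 1) (S : Finset (Fin n)) :
    ∃ e : Fin n → ℝ, (∀ i ∈ S, e i = -1 ∨ e i = 1) ∧ (∀ i ∉ S, e i = z i) ∧
      arcLength (pol z) ≤ arcLength (pol e) := by
  induction S using Finset.induction_on with
  | empty => exact ⟨z, by simp, by simp, le_rfl⟩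
  | insert a S ha ih =>
    obtain ⟨e, he1, he2, he3⟩ := ih
    obtain ⟨t, ht, ht2⟩ := step_le e a (by rw [he2 a ha]; exact hz a)
    refine ⟨Function.update e a t, ?_, ?_, he3.trans ht2⟩
    · intro i hi
      by_cases hia : i = a
      · subst hia
        simpa using ht
      · rw [Function.update_of_ne hia]
        exact he1 i (Finset.mem_of_mem_insert_of_ne hi hia)
    · intro i hi
      have hia : i ≠ a := fun h => hi (h ▸ Finset.mem_insert_self a S)
      rw [Function.update_of_ne hia]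
      exact he2 i (fun h => hi (Finset.mem_insert_of_mem h))

/-- The polynomial attached to a vertex of the cube. -/
lemma vertex_form {n : ℕ} (e : Fin n → ℝ) (he : ∀ i, e i = -1 ∨ e i = 1) :
    ∃ k ≤ n, pol e = (X - C 1) ^ k * (X + C 1) ^ (n - k) := by
  classical
  refine ⟨(Finset.univ.filter (fun i => e i = 1)).card, ?_, ?_⟩
  · exact (Finset.card_le_univ _).trans (by simp)
  · unfold pol
    rw [← Finset.prod_filter_mul_prod_filter_not Finset.univ (fun i => e i = 1)]
    congr 1
    · rw [Finset.prod_congr rfl (g := fun _ => X - C 1)]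
      · simp
      · intro i hi
        rw [(Finset.mem_filter.mp hi).2]
    · rw [Finset.prod_congr rfl (g := fun _ => X + C 1)]
      · rw [Finset.prod_const]
        congr 1
        have := Finset.card_filter_add_card_filter_not (s := (Finset.univ : Finset (Fin n)))
          (fun i => e i = 1)
        simp only [Finset.card_univ, Fintype.card_fin] at this
        omega
      · intro i hi
        have h1 : e i = -1 := by
          rcases he i with h | h
          · exact h
          · exact absurd h (Finset.mem_filter.mp hi).2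
        rw [h1]
        simp

/-! ### Arc lengths at the vertices -/

lemma arc_lower (P : ℝ[X]) : |P.eval 1 - P.eval (-1)| < arcLength P := by
  have hd : ∀ x : ℝ, HasDerivAt (fun y => P.eval y) (P.derivative.eval x) x := P.hasDerivAt
  have hc : Continuous (fun x : ℝ => P.derivative.eval x) := P.derivative.continuous
  have h1 : ∫ x in (-1 : ℝ)..1, P.derivative.eval x = P.eval 1 - P.eval (-1) :=
    intervalIntegral.integral_eq_sub_of_hasDerivAt (fun x _ => hd x) (hc.intervalIntegrable _ _)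
  rw [← h1]
  refine lt_of_le_of_lt (intervalIntegral.abs_integral_le_integral_abs (by norm_num)) ?_
  unfold arcLength
  apply intervalIntegral.integral_lt_integral_of_continuousOn_of_le_of_exists_lt (by norm_num)
  · exact hc.abs.continuousOn
  · exact (cont_integrand _).continuousOn
  · intro x _
    apply Real.le_sqrt_of_sq_le
    rw [sq_abs]
    linarith
  · refine ⟨0, by norm_num, ?_⟩
    apply Real.lt_sqrt_of_sq_lt
    rw [sq_abs]
    linarith

lemma arc_upper (P : ℝ[X]) : arcLength P ≤ 2 + ∫ x in (-1 : ℝ)..1, |P.derivative.eval x| := by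
  have hc : Continuous (fun x : ℝ => P.derivative.eval x) := P.derivative.continuous
  have h2 : (2 : ℝ) = ∫ x in (-1 : ℝ)..1, (1 : ℝ) := by norm_num
  rw [h2, ← intervalIntegral.integral_add (by simp) (hc.abs.intervalIntegrable _ _)]
  unfold arcLength
  apply intervalIntegral.integral_mono_on (by norm_num)
  · exact (cont_integrand _).intervalIntegrable _ _
  · exact (continuous_const.add hc.abs).intervalIntegrable _ _
  · intro x _
    apply Real.sqrt_le_iff.mpr
    constructor
    · positivity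
    · have := abs_nonneg (P.derivative.eval x)
      have h3 := sq_abs (P.derivative.eval x)
      nlinarith

lemma arc_mixed (a b : ℕ) :
    arcLength ((X - C 1) ^ (a + 1) * (X + C 1) ^ (b + 1)) ≤ 2 + 2 * 2 ^ (a + b) := by
  set P : ℝ[X] := (X - C 1) ^ (a + 1) * (X + C 1) ^ (b + 1) with hP
  refine (arc_upper P).trans ?_
  have hc : Continuous (fun x : ℝ => P.derivative.eval x) := P.derivative.continuous
  have hd : ∀ x : ℝ, HasDerivAt (fun y => P.eval y) (P.derivative.eval x) x := P.hasDerivAt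
  have hev : ∀ x : ℝ, P.eval x = (x - 1) ^ (a + 1) * (x + 1) ^ (b + 1) := by
    intro x; simp [hP]
  have hder : ∀ x : ℝ, P.derivative.eval x =
      (x - 1) ^ a * (x + 1) ^ b * ((a + 1) * (x + 1) + (b + 1) * (x - 1)) := by
    intro x
    rw [hP]
    simp only [derivative_mul, derivative_pow, eval_add, eval_mul, eval_pow, eval_sub, eval_X,
      eval_C, derivative_sub, derivative_X, derivative_C, derivative_add, eval_one, eval_zero,
      Nat.add_sub_cancel, eval_natCast]
    push_cast
    ring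
  have habs : ∀ x ∈ Set.Icc (-1 : ℝ) 1, |P.derivative.eval x| =
      (1 - x) ^ a * (x + 1) ^ b * |(a + 1) * (x + 1) + (b + 1) * (x - 1)| := by
    intro x hx
    rw [hder, abs_mul, abs_mul, abs_pow, abs_pow]
    congr 3
    · rw [abs_sub_comm]; exact abs_of_nonneg (by linarith [hx.2])
    · exact abs_of_nonneg (by linarith [hx.1])
  -- critical point
  set c : ℝ := ((b : ℝ) - a) / (a + b + 2) with hcdef
  have hpos : (0 : ℝ) < a + b + 2 := by positivity
  have hc1 : -1 ≤ c := by
    rw [hcdef, le_div_iff₀ hpos]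
    have : (0 : ℝ) ≤ b := Nat.cast_nonneg b
    linarith
  have hc2 : c ≤ 1 := by
    rw [hcdef, div_le_iff₀ hpos]
    have : (0 : ℝ) ≤ a := Nat.cast_nonneg a
    linarith
  have hlin : ∀ x : ℝ, (a + 1) * (x + 1) + (b + 1) * (x - 1) = (a + b + 2) * (x - c) := by
    intro x
    rw [hcdef]
    field_simp
    ring
  have e1 : ∫ x in (-1 : ℝ)..c, |P.derivative.eval x| = |P.eval c| := by
    have h1 : ∫ x in (-1 : ℝ)..c, |P.derivative.eval x| =
        ∫ x in (-1 : ℝ)..c, (-1) ^ (a + 1) * P.derivative.eval x := by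
      apply intervalIntegral.integral_congr
      intro x hx
      rw [Set.uIcc_of_le hc1] at hx
      have hx' : x ∈ Set.Icc (-1 : ℝ) 1 := ⟨hx.1, hx.2.trans hc2⟩
      show |P.derivative.eval x| = (-1) ^ (a + 1) * P.derivative.eval x
      rw [habs x hx', hder, hlin]
      rw [abs_of_nonpos (by nlinarith [hx.2] : (a + b + 2) * (x - c) ≤ 0)]
      have : (x - 1) ^ a = (-1) ^ a * (1 - x) ^ a := by
        rw [← mul_pow]; congr 1; ring
      rw [this]
      have h4 : ((-1 : ℝ) ^ a) * (-1) ^ a = 1 := by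
        rw [← mul_pow]; simp
      rw [pow_succ]
      linear_combination (1 - x) ^ a * (x + 1) ^ b * ((a + b + 2) * (x - c)) * h4
    rw [h1, intervalIntegral.integral_const_mul,
      intervalIntegral.integral_eq_sub_of_hasDerivAt (fun x _ => hd x)
        (hc.intervalIntegrable _ _)]
    have h5 : P.eval (-1) = 0 := by rw [hev]; simp
    rw [h5, sub_zero, hev, abs_mul, abs_pow, abs_pow,
      abs_of_nonneg (by linarith : 0 ≤ c + 1), abs_of_nonpos (by linarith : c - 1 ≤ 0)]
    rw [← mul_assoc, ← mul_pow]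
    congr 2
    ring
  have e2 : ∫ x in c..(1 : ℝ), |P.derivative.eval x| = |P.eval c| := by
    have h1 : ∫ x in c..(1 : ℝ), |P.derivative.eval x| =
        ∫ x in c..(1 : ℝ), (-1) ^ a * P.derivative.eval x := by
      apply intervalIntegral.integral_congr
      intro x hx
      rw [Set.uIcc_of_le hc2] at hx
      have hx' : x ∈ Set.Icc (-1 : ℝ) 1 := ⟨hc1.trans hx.1, hx.2⟩
      show |P.derivative.eval x| = (-1) ^ a * P.derivative.eval x
      rw [habs x hx', hder, hlin]
      rw [abs_of_nonneg (mul_nonneg hpos.le (by linarith [hx.1]) : 0 ≤ (a + b + 2) * (x - c))]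
      have : (x - 1) ^ a = (-1) ^ a * (1 - x) ^ a := by
        rw [← mul_pow]; congr 1; ring
      rw [this]
      have h4 : ((-1 : ℝ) ^ a) * (-1) ^ a = 1 := by
        rw [← mul_pow]; simp
      linear_combination -(1 - x) ^ a * (x + 1) ^ b * ((a + b + 2) * (x - c)) * h4
    rw [h1, intervalIntegral.integral_const_mul,
      intervalIntegral.integral_eq_sub_of_hasDerivAt (fun x _ => hd x)
        (hc.intervalIntegrable _ _)]
    have h5 : P.eval 1 = 0 := by rw [hev]; simp
    rw [h5, zero_sub, hev, abs_mul, abs_pow, abs_pow,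
      abs_of_nonneg (by linarith : 0 ≤ c + 1), abs_of_nonpos (by linarith : c - 1 ≤ 0)]
    have : (c - 1) ^ (a + 1) = (-1) ^ (a + 1) * (-(c - 1)) ^ (a + 1) := by
      rw [← mul_pow]; congr 1; ring
    rw [this]
    have h4 : ((-1 : ℝ) ^ a) * (-1) ^ a = 1 := by
      rw [← mul_pow]; simp
    rw [pow_succ (-1 : ℝ) a]
    linear_combination (-(c - 1)) ^ (a + 1) * (c + 1) ^ (b + 1) * h4
  rw [← intervalIntegral.integral_add_adjacent_intervals
    (hc.abs.intervalIntegrable (-1) c) (hc.abs.intervalIntegrable c 1), e1, e2]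
  have hbound : |P.eval c| ≤ 2 ^ (a + b) := by
    rw [hev, abs_mul, abs_pow, abs_pow,
      abs_of_nonneg (by linarith : 0 ≤ c + 1), abs_of_nonpos (by linarith : c - 1 ≤ 0)]
    have p1 : (-(c - 1)) ^ a ≤ 2 ^ a := pow_le_pow_left₀ (by linarith) (by linarith) a
    have p2 : (c + 1) ^ b ≤ 2 ^ b := pow_le_pow_left₀ (by linarith) (by linarith) b
    have p3 : -(c - 1) * (c + 1) ≤ 1 := by nlinarith [sq_nonneg c]
    have p0 : 0 ≤ -(c - 1) * (c + 1) := mul_nonneg (by linarith) (by linarith)
    have q1 : 0 ≤ (-(c - 1)) ^ a := pow_nonneg (by linarith) a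
    have q2 : 0 ≤ (c + 1) ^ b := pow_nonneg (by linarith) b
    calc (-(c - 1)) ^ (a + 1) * (c + 1) ^ (b + 1)
        = ((-(c - 1)) ^ a * (c + 1) ^ b) * (-(c - 1) * (c + 1)) := by ring
      _ ≤ (2 ^ a * 2 ^ b) * 1 := by
          apply mul_le_mul _ p3 p0 (by positivity)
          exact mul_le_mul p1 p2 q2 (by positivity)
      _ = 2 ^ (a + b) := by rw [pow_add]; ring
  linarith

/-! ### Reflection -/

lemma arc_reflect (n : ℕ) : arcLength ((X + C 1 : ℝ[X]) ^ n) = arcLength ((X - C 1 : ℝ[X]) ^ n) := by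
  unfold arcLength
  have := intervalIntegral.integral_comp_neg (a := (-1 : ℝ)) (b := 1)
    (fun x => Real.sqrt (1 + (((X - C 1 : ℝ[X]) ^ n).derivative.eval x) ^ 2))
  rw [neg_neg] at this
  rw [← this]
  congr 1
  ext x
  congr 2
  simp only [derivative_pow, derivative_sub, derivative_add, derivative_X, derivative_C,
    eval_mul, eval_pow, eval_sub, eval_add, eval_X, eval_C, eval_natCast, eval_one, eval_zero]
  have : (-x - 1) ^ (n - 1) = (-1) ^ (n - 1) * (x + 1) ^ (n - 1) := by
    rw [← mul_pow]; congr 1; ring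
  rw [this]
  have h4 : ((-1 : ℝ) ^ (n - 1)) ^ 2 = 1 := by
    rw [← pow_mul, mul_comm, pow_mul]; simp
  linear_combination (-((n : ℝ) * (x + 1) ^ (n - 1)) ^ 2) * h4

lemma arc_top (n : ℕ) (hn : 1 ≤ n) : (2 : ℝ) ^ n < arcLength ((X - C 1 : ℝ[X]) ^ n) := by
  have h := arc_lower ((X - C 1 : ℝ[X]) ^ n)
  have h0 : n ≠ 0 := by omega
  simp only [eval_pow, eval_sub, eval_X, eval_C, sub_self, zero_pow h0, zero_sub, abs_neg,
    abs_pow] at h
  norm_num at h
  exact h

lemma arc_mixed_lt (n k : ℕ) (hk : 1 ≤ k) (hkn : k < n) :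
    arcLength ((X - C 1) ^ k * (X + C 1) ^ (n - k)) < arcLength ((X - C 1 : ℝ[X]) ^ n) := by
  obtain ⟨a, rfl⟩ : ∃ a, k = a + 1 := ⟨k - 1, by omega⟩
  obtain ⟨b, rfl⟩ : ∃ b, n = (a + 1) + (b + 1) := ⟨n - (a + 1) - 1, by omega⟩
  rw [Nat.add_sub_cancel_left]
  refine lt_of_le_of_lt (arc_mixed a b) (lt_of_le_of_lt ?_ (arc_top _ (by omega)))
  have : (1 : ℝ) ≤ 2 ^ (a + b) := one_le_pow₀ (by norm_num)
  have h2 : (2 : ℝ) ^ (a + 1 + (b + 1)) = 4 * 2 ^ (a + b) := by ring
  rw [h2]
  linarith

lemma arc_vertex_le (n k : ℕ) (hkn : k ≤ n) :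
    arcLength ((X - C 1) ^ k * (X + C 1) ^ (n - k)) ≤ arcLength ((X - C 1 : ℝ[X]) ^ n) := by
  rcases Nat.eq_zero_or_pos k with rfl | hk
  · simp only [pow_zero, one_mul, Nat.sub_zero]
    exact (arc_reflect n).le
  · rcases hkn.eq_or_lt with rfl | hlt
    · simp
    · exact (arc_mixed_lt n k hk hlt).le

lemma pol_le {n : ℕ} (z : Fin n → ℝ) (hz : ∀ i, z i ∈ Set.Icc (-1 : ℝ) 1) :
    arcLength (pol z) ≤ arcLength ((X - C 1 : ℝ[X]) ^ n) := by
  obtain ⟨e, he1, -, he3⟩ := to_vertex z hz Finset.univ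
  obtain ⟨k, hk, hk'⟩ := vertex_form e (fun i => he1 i (Finset.mem_univ i))
  refine he3.trans ?_
  rw [hk']
  exact arc_vertex_le n k hk

lemma mem_sub (n : ℕ) : (X - C 1 : ℝ[X]) ^ n ∈ M n :=
  ⟨fun _ => 1, monotone_const, fun _ => by norm_num, by simp⟩

lemma mem_add (n : ℕ) : (X + C 1 : ℝ[X]) ^ n ∈ M n :=
  ⟨fun _ => -1, monotone_const, fun _ => by norm_num, by simp⟩

/-- **Maximal arc-length.**  For every `n ≥ 1` the polynomials `(x-1)^n` and `(x+1)^n` belong to
`M n` and maximise the arc-length over `M n`; for `n ≥ 2` they are the only maximisers. -/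
theorem result (n : ℕ) (_hn : 1 ≤ n) :
    ((X - C 1 : ℝ[X]) ^ n ∈ M n ∧ ∀ P ∈ M n, arcLength P ≤ arcLength ((X - C 1 : ℝ[X]) ^ n)) ∧
    ((X + C 1 : ℝ[X]) ^ n ∈ M n ∧ ∀ P ∈ M n, arcLength P ≤ arcLength ((X + C 1 : ℝ[X]) ^ n)) ∧
    (2 ≤ n → ∀ P ∈ M n, (∀ Q ∈ M n, arcLength Q ≤ arcLength P) →
      P = (X - C 1) ^ n ∨ P = (X + C 1) ^ n) := by
  have hmax : ∀ P ∈ M n, arcLength P ≤ arcLength ((X - C 1 : ℝ[X]) ^ n) := by
    rintro P ⟨z, -, hz, rfl⟩
    exact pol_le z hz
  refine ⟨⟨mem_sub n, hmax⟩, ⟨mem_add n, ?_⟩, ?_⟩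
  · rw [arc_reflect]; exact hmax
  · rintro h2 P ⟨z, -, hz, rfl⟩ hP
    have hP' : arcLength ((X - C 1 : ℝ[X]) ^ n) ≤ arcLength (pol z) := hP _ (mem_sub n)
    have hv : ∀ i, z i = -1 ∨ z i = 1 := by
      intro i
      by_contra hcon
      push Not at hcon
      obtain ⟨t, ht, hlt⟩ := step_lt h2 z i
        ⟨lt_of_le_of_ne (hz i).1 (Ne.symm hcon.1), lt_of_le_of_ne (hz i).2 hcon.2⟩
      have hz' : ∀ j, Function.update z i t j ∈ Set.Icc (-1 : ℝ) 1 := by
        intro j
        by_cases hj : j = i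
        · subst hj
          rw [Function.update_self]
          rcases ht with rfl | rfl <;> norm_num
        · rw [Function.update_of_ne hj]; exact hz j
      have := pol_le _ hz'
      linarith
    obtain ⟨k, hk, hk'⟩ := vertex_form z hv
    change pol z = _ ∨ pol z = _
    rcases Nat.eq_zero_or_pos k with rfl | hk0
    · right; rw [hk']; simp
    · rcases hk.eq_or_lt with rfl | hlt
      · left; rw [hk']; simp
      · exfalso
        have := arc_mixed_lt n k hk0 hlt
        rw [hk'] at hP'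
        linarith

end Pool.Agent.Results.MP_c605fa_an.MaxArcLength
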